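import Pool.Agent.Helper26.TK.Pos

/-!
Packets TK-R6, TK-R7b: common lemmas.
-/

set_option autoImplicit false

namespace Pool.Agent.Helper11.TK

open Set Filter Topology MeasureTheory Pool.Agent.Helper26.TK

section sep

variable {X : Type} [NormedAddCommGroup X] [NormedSpace ℝ X]

theorem sep_mono {δ δ' : ℝ} (h : δ' ≤ δ) {x : ℕ → X} (hx : Sep δ x) : Sep δ' x :=
  fun k u hu v hv => h.trans (hx k u hu v hv)

theorem jj_mono {d : ℕ → X} {δ δ' : ℝ} (h : δ' ≤ δ) {A : Set ℕ} (hA : JJ d δ' A) : JJ d δ A := by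
  rintro ⟨s, hs, hsep⟩
  exact hA ⟨s, hs, sep_mono h hsep⟩

theorem wc_iff (hR1 : StmtR1) (hR2 : StmtR2) [CompleteSpace X] {d : ℕ → X} (hd : ∀ n, ‖d n‖ ≤ 1)
    (A : Set ℕ) : WC d A ↔ ∀ j : ℕ, JJ d (1 / ((j : ℝ) + 1)) A := by
  constructor
  · rintro ⟨K, hK⟩ j ⟨s, hs, hsep⟩
    have hpos : (0 : ℝ) < 1 / ((j : ℝ) + 1) := by positivity
    have hfin := hR2 X K.1 K.2.2 _ hpos _ hsep
    have huniv : {i : ℕ | ∃ w ∈ K.1, ‖d (s i) - w‖ ≤ 1 / ((j : ℝ) + 1) / 4} = Set.univ := by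
      rw [Set.eq_univ_iff_forall]
      intro i
      refine ⟨d (s i), hK _ (hs i), ?_⟩
      rw [sub_self, norm_zero]
      positivity
    rw [huniv] at hfin
    exact Set.infinite_univ hfin
  · intro h
    refine hR1 X d hd A fun δ hδ => ?_
    obtain ⟨j, hj⟩ := exists_nat_one_div_lt hδ
    exact jj_mono hj.le (h j)

/-- the separation condition for the first `n` terms -/
def SepN (δ : ℝ) (n : ℕ) (x : ℕ → X) : Prop :=
  ∀ k ≤ n, ∀ u ∈ convexHull ℝ (x '' Set.Iio k), ∀ v ∈ convexHull ℝ (x '' Set.Ico k n),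
    δ ≤ ‖u - v‖

theorem sepN_congr {δ : ℝ} {n : ℕ} {x y : ℕ → X} (h : ∀ i < n, x i = y i) :
    SepN δ n x ↔ SepN δ n y := by
  unfold SepN
  refine forall₂_congr fun k hk => ?_
  have h1 : x '' Set.Iio k = y '' Set.Iio k :=
    Set.image_congr fun i hi => h i (lt_of_lt_of_le hi hk)
  have h2 : x '' Set.Ico k n = y '' Set.Ico k n := Set.image_congr fun i hi => h i hi.2
  rw [h1, h2]

theorem SepN.le {δ : ℝ} {n m : ℕ} {x : ℕ → X} (h : SepN δ n x) (hmn : m ≤ n) : SepN δ m x := by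
  intro k hk u hu v hv
  refine h k (hk.trans hmn) u hu v (convexHull_mono ?_ hv)
  exact Set.image_mono (Set.Ico_subset_Ico_right hmn)

theorem sep_iff {δ : ℝ} {x : ℕ → X} : Sep δ x ↔ ∀ n, SepN δ n x := by
  constructor
  · intro h n k _ u hu v hv
    exact h k u hu v (convexHull_mono (Set.image_mono fun i hi => hi.1) hv)
  · intro h k u hu v hv
    rw [convexHull_eq_union_convexHull_finite_subsets] at hv
    simp only [Set.mem_iUnion] at hv
    obtain ⟨t, ht, hvt⟩ := hv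
    have ht' : ∀ w ∈ t, ∃ i, k ≤ i ∧ x i = w := fun w hw => ht hw
    choose! i hi using ht'
    obtain ⟨n, hn⟩ : ∃ n : ℕ, k ≤ n ∧ ∀ w ∈ t, i w < n := by
      refine ⟨max k (t.sup i + 1), le_max_left _ _, fun w hw => ?_⟩
      exact lt_of_lt_of_le (Nat.lt_succ_of_le (Finset.le_sup hw)) (le_max_right _ _)
    refine h n k hn.1 u hu v (convexHull_mono ?_ hvt)
    intro w hw
    exact ⟨i w, ⟨(hi w hw).1, hn.2 w hw⟩, (hi w hw).2⟩

end sep

/-! ### continuity -/

theorem cont_disc {Y : Type*} [TopologicalSpace Y] {Z : Type*} [TopologicalSpace Z]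
    {n : Y → ℕ} (hn : Continuous n) {g : ℕ → Y → Z} (hg : ∀ k, Continuous (g k)) :
    Continuous fun p => g (n p) p := by
  rw [continuous_iff_continuousAt]
  intro p
  have h1 : ∀ᶠ q in 𝓝 p, n q = n p := by
    have := hn.continuousAt (x := p)
    exact this.eventually (IsOpen.mem_nhds (isOpen_discrete {n p}) rfl)
  refine ((hg (n p)).continuousAt (x := p)).congr ?_
  filter_upwards [h1] with q hq
  rw [hq]

theorem clopen_of_dep {n : ℕ} {P : (ℕ → ℕ) → Prop}
    (hP : ∀ s t : ℕ → ℕ, (∀ i < n, s i = t i) → (P s ↔ P t)) : IsClopen {s | P s} := by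
  have h1 : {s | P s} = (fun (s : ℕ → ℕ) (i : Fin n) => s i) ⁻¹'
      {t : Fin n → ℕ | P fun i => if h : i < n then t ⟨i, h⟩ else 0} := by
    ext s
    refine hP _ _ fun i hi => ?_
    simp [hi]
  rw [h1]
  refine IsClopen.preimage ⟨isClosed_discrete _, isOpen_discrete _⟩ ?_
  exact continuous_pi fun i => continuous_apply _

theorem closed_sep {X : Type} [NormedAddCommGroup X] [NormedSpace ℝ X] (d : ℕ → X) (δ : ℝ) :
    IsClosed {s : ℕ → ℕ | Sep δ (fun i => d (s i))} := by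
  have h1 : {s : ℕ → ℕ | Sep δ (fun i => d (s i))} =
      ⋂ n, {s : ℕ → ℕ | SepN δ n (fun i => d (s i))} := by
    ext s
    rw [Set.mem_iInter]
    exact sep_iff
  rw [h1]
  refine isClosed_iInter fun n => (clopen_of_dep (n := n) ?_).1
  intro s t h
  exact sepN_congr fun i hi => by rw [h i hi]

end Pool.Agent.Helper11.TK
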