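import Pool.Agent.Helper11.TK.Base

/-!
Packet TK-R6: the relatively weakly compact parts of a sequence form a union of at most `ℵ₁`
analytic families.
-/

set_option autoImplicit false
set_option linter.deprecated false

namespace Pool.Agent.Helper11.TK

open Set Filter Topology MeasureTheory Pool.Agent.Helper26.TK

/-! ### the first uncountable ordinal -/

/-- a well-ordered set of order type `ω₁` -/
abbrev Om : Type := (Cardinal.aleph 1).ord.ToType

theorem om_card : Cardinal.mk Om = Cardinal.aleph 1 := Cardinal.mk_ord_toType _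

theorem om_Iio (e : Om) : (Set.Iio e).Countable := by
  rw [← Cardinal.le_aleph0_iff_set_countable]
  have h := (Cardinal.mk_Iio_toType_ord_lt e).trans_eq Cardinal.succ_aleph0.symm
  exact Order.lt_succ_iff.1 h

theorem om_Iic (e : Om) : (Set.Iic e).Countable := by
  have h : Set.Iic e = Set.Iio e ∪ {e} := by
    ext x
    simp [le_iff_lt_or_eq]
  rw [h]
  exact (om_Iio e).union (Set.countable_singleton e)

theorem om_bound {ι : Type*} [Countable ι] (f : ι → Om) : ∃ e : Om, ∀ i, f i < e := by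
  by_contra hcon
  push Not at hcon
  have h1 : (Set.univ : Set Om) = ⋃ i, Set.Iic (f i) := by
    symm
    rw [Set.eq_univ_iff_forall]
    intro e
    obtain ⟨i, hi⟩ := hcon e
    exact Set.mem_iUnion.2 ⟨i, hi⟩
  have h2 : (Set.univ : Set Om).Countable := by
    rw [h1]
    exact Set.countable_iUnion fun i => om_Iic (f i)
  have h3 : Cardinal.mk Om ≤ Cardinal.aleph0 := by
    have := Set.countable_univ_iff.1 h2
    exact Cardinal.mk_le_aleph0
  rw [om_card] at h3
  exact absurd h3 (not_le.2 Cardinal.aleph0_lt_aleph_one)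

theorem om_rank {α : Type*} [Countable α] {r : α → α → Prop} (hr : WellFounded r) :
    ∃ ρ : α → Om, ∀ a b, r a b → ρ a < ρ b := by
  classical
  refine ⟨hr.fix fun b ih => Classical.choose (om_bound fun a : {a // r a b} => ih a.1 a.2), ?_⟩
  intro a b hab
  conv_rhs => rw [WellFounded.fix_eq]
  exact Classical.choose_spec (om_bound fun a : {a // r a b} =>
    hr.fix (fun b ih => Classical.choose (om_bound fun a : {a // r a b} => ih a.1 a.2)) a.1) ⟨a, hab⟩

/-! ### lists -/

section lists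

variable {X : Type} [NormedAddCommGroup X] [NormedSpace ℝ X]

/-- the finite sequence `l` is `1 / (j + 1)`-separated -/
def TL (d : ℕ → X) (j : ℕ) (l : List ℕ) : Prop :=
  SepN (1 / ((j : ℝ) + 1)) l.length (fun i => d (l.getD i 0))

/-- the relation on lists -/
def WR (d : ℕ → X) (j : ℕ) (A : Set ℕ) (l' l : List ℕ) : Prop :=
  ∃ a, l' = l ++ [a] ∧ (∀ b ∈ l', b ∈ A) ∧ TL d j l'

theorem wr_wf {d : ℕ → X} {j : ℕ} {A : Set ℕ} (h : JJ d (1 / ((j : ℝ) + 1)) A) :
    WellFounded (WR d j A) := by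
  rw [wellFounded_iff_isEmpty_descending_chain]
  refine ⟨?_⟩
  rintro ⟨f, hf⟩
  have hstep : ∀ n, ∃ a, f (n + 1) = f n ++ [a] := fun n => (hf n).imp fun a ha => ha.1
  have hlen : ∀ n, (f n).length = (f 0).length + n := by
    intro n
    induction n with
    | zero => rfl
    | succ n ih =>
      obtain ⟨a, ha⟩ := hstep n
      rw [ha, List.length_append, ih, List.length_singleton]
      omega
  have hget1 : ∀ n i, i < (f n).length → (f (n + 1)).getD i 0 = (f n).getD i 0 := by
    intro n i hi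
    obtain ⟨a, ha⟩ := hstep n
    rw [ha, List.getD_append _ _ _ _ hi]
  have hget : ∀ n m i, i < (f n).length → (f (n + m)).getD i 0 = (f n).getD i 0 := by
    intro n m i hi
    induction m with
    | zero => rfl
    | succ m ih =>
      rw [← ih]
      refine hget1 (n + m) i ?_
      rw [hlen] at hi ⊢
      omega
  set s : ℕ → ℕ := fun i => (f (i + 1)).getD i 0 with hs
  have hs2 : ∀ n i, i < n → (f n).getD i 0 = s i := by
    intro n i hi
    obtain ⟨m, rfl⟩ := Nat.exists_eq_add_of_lt hi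
    have h1 := hget (i + 1) m i (by rw [hlen]; omega)
    rw [show i + m + 1 = i + 1 + m by ring]
    exact h1
  refine h ⟨s, fun i => ?_, ?_⟩
  · obtain ⟨a, -, h2, -⟩ := hf i
    refine h2 _ ?_
    have hi : i < (f (i + 1)).length := by rw [hlen]; omega
    show (f (i + 1)).getD i 0 ∈ f (i + 1)
    rw [List.getD_eq_getElem _ _ hi]
    exact List.getElem_mem hi
  · rw [sep_iff]
    intro n
    obtain ⟨a, -, -, h3⟩ := hf n
    have h4 : n ≤ (f (n + 1)).length := by rw [hlen]; omega
    refine (sepN_congr fun i hi => ?_).1 (h3.le h4)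
    rw [hs2 (n + 1) i (by omega)]

theorem jj_of_rank {d : ℕ → X} {j : ℕ} {A : Set ℕ} {E : Type*} [Preorder E] [WellFoundedLT E]
    (ρ : List ℕ → E) (hρ : ∀ l' l, WR d j A l' l → ρ l' < ρ l) : JJ d (1 / ((j : ℝ) + 1)) A := by
  rintro ⟨s, hsA, hsep⟩
  have hdec : ∀ n, ρ (pre s (n + 1)) < ρ (pre s n) := by
    intro n
    apply hρ
    have hlen : (pre s (n + 1)).length = n + 1 := by simp [pre]
    refine ⟨s n, ?_, ?_, ?_⟩
    · simp [pre, List.range_succ]
    · intro b hb
      simp only [pre, List.mem_map] at hb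
      obtain ⟨i, -, rfl⟩ := hb
      exact hsA i
    · unfold TL
      rw [hlen]
      refine (sepN_congr fun i hi => ?_).1 (sep_iff.1 hsep (n + 1))
      congr 1
      rw [List.getD_eq_getElem _ _ (by rw [hlen]; exact hi)]
      simp [pre]
  obtain ⟨m, ⟨n, rfl⟩, hmin⟩ := (wellFounded_lt (α := E)).has_min
    (Set.range fun n => ρ (pre s n)) ⟨_, ⟨0, rfl⟩⟩
  exact hmin _ ⟨n + 1, rfl⟩ (hdec n)

end lists

/-! ### countable discrete well-ordered sets -/

/-- the initial segment below `e` with the discrete topology -/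
def Ee (e : Om) : Type := {x : Om // x ≤ e}

noncomputable instance (e : Om) : LinearOrder (Ee e) := inferInstanceAs (LinearOrder {x : Om // x ≤ e})

instance (e : Om) : WellFoundedLT (Ee e) := inferInstanceAs (WellFoundedLT {x : Om // x ≤ e})

instance (e : Om) : Countable (Ee e) := (om_Iic e).to_subtype

instance (e : Om) : TopologicalSpace (Ee e) := ⊥

instance (e : Om) : DiscreteTopology (Ee e) := ⟨rfl⟩

instance (e : Om) : PolishSpace (Ee e) := inferInstance

instance polish_cantor : PolishSpace (ℕ → Bool) := { }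

theorem analytic_fam {X : Type} [NormedAddCommGroup X] [NormedSpace ℝ X] (d : ℕ → X) (e : Om) :
    ∃ G : (ℕ → ℕ) → (ℕ → Bool), Continuous G ∧ ∀ χ : ℕ → Bool, (∃ z, G z = χ) ↔
      ∃ ρ : ℕ → List ℕ → Ee e, ∀ j l a, (∀ b ∈ l ++ [a], χ b = true) → TL d j (l ++ [a]) →
        ρ j (l ++ [a]) < ρ j l := by
  have hcl : IsClosed {p : (ℕ → Bool) × (ℕ → List ℕ → Ee e) | ∀ j l a,
      (∀ b ∈ l ++ [a], p.1 b = true) → TL d j (l ++ [a]) → p.2 j (l ++ [a]) < p.2 j l} := by
    have h1 : {p : (ℕ → Bool) × (ℕ → List ℕ → Ee e) | ∀ j l a,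
        (∀ b ∈ l ++ [a], p.1 b = true) → TL d j (l ++ [a]) → p.2 j (l ++ [a]) < p.2 j l} =
        ⋂ (j : ℕ) (l : List ℕ) (a : ℕ), {p : (ℕ → Bool) × (ℕ → List ℕ → Ee e) |
          (∀ b ∈ l ++ [a], p.1 b = true) → TL d j (l ++ [a]) → p.2 j (l ++ [a]) < p.2 j l} := by
      ext p
      simp only [Set.mem_iInter]
      rfl
    rw [h1]
    refine isClosed_iInter fun j => isClosed_iInter fun l => isClosed_iInter fun a => ?_
    by_cases hT : TL d j (l ++ [a])
    · have h2 : {p : (ℕ → Bool) × (ℕ → List ℕ → Ee e) |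
          (∀ b ∈ l ++ [a], p.1 b = true) → TL d j (l ++ [a]) → p.2 j (l ++ [a]) < p.2 j l} =
          (⋂ b ∈ (l ++ [a]).toFinset, (fun p : (ℕ → Bool) × (ℕ → List ℕ → Ee e) => p.1 b) ⁻¹'
            {true})ᶜ ∪ (fun p : (ℕ → Bool) × (ℕ → List ℕ → Ee e) =>
              (p.2 j (l ++ [a]), p.2 j l)) ⁻¹' {q | q.1 < q.2} := by
        ext p
        simp only [Set.mem_union, Set.mem_compl_iff, Set.mem_iInter, List.mem_toFinset,
          Set.mem_preimage, Set.mem_singleton_iff]
        constructor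
        · intro h
          by_cases hb : ∀ b ∈ l ++ [a], p.1 b = true
          · exact Or.inr (h hb hT)
          · exact Or.inl hb
        · rintro (h | h) hb _
          · exact absurd hb h
          · exact h
      rw [h2]
      refine IsClosed.union (isClosed_compl_iff.2 ?_) ?_
      · refine isOpen_biInter_finset fun b _ => ?_
        exact (isOpen_discrete _).preimage ((continuous_apply b).comp continuous_fst)
      · refine (isClosed_discrete _).preimage ?_
        exact ((continuous_apply _).comp ((continuous_apply j).comp continuous_snd)).prodMk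
          ((continuous_apply _).comp ((continuous_apply j).comp continuous_snd))
    · have h2 : {p : (ℕ → Bool) × (ℕ → List ℕ → Ee e) |
          (∀ b ∈ l ++ [a], p.1 b = true) → TL d j (l ++ [a]) → p.2 j (l ++ [a]) < p.2 j l} =
          Set.univ := by
        rw [Set.eq_univ_iff_forall]
        intro p _ h
        exact absurd h hT
      rw [h2]
      exact isClosed_univ
  have han := hcl.analyticSet.image_of_continuous
    (continuous_fst : Continuous (Prod.fst : (ℕ → Bool) × (ℕ → List ℕ → Ee e) → (ℕ → Bool)))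
  rw [AnalyticSet] at han
  rcases han with hem | ⟨G, hG, hran⟩
  · exfalso
    have : (fun _ : ℕ => false) ∈ Prod.fst '' {p : (ℕ → Bool) × (ℕ → List ℕ → Ee e) | ∀ j l a,
      (∀ b ∈ l ++ [a], p.1 b = true) → TL d j (l ++ [a]) → p.2 j (l ++ [a]) < p.2 j l} := by
      refine ⟨(fun _ => false, fun _ _ => ⟨e, le_rfl⟩), ?_, rfl⟩
      intro j l a h
      have := h a (by simp)
      simp at this
    rw [hem] at this
    exact this
  · refine ⟨G, hG, fun χ => ?_⟩
    have h1 : (∃ z, G z = χ) ↔ χ ∈ Set.range G := Iff.rfl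
    rw [h1, hran]
    constructor
    · rintro ⟨⟨χ', ρ⟩, h, rfl⟩
      exact ⟨ρ, h⟩
    · rintro ⟨ρ, h⟩
      exact ⟨(χ, ρ), h, rfl⟩

theorem stmtR6 (hR1 : StmtR1) (hR2 : StmtR2) : StmtR6 := by
  classical
  intro X _ _ _ d hd
  choose G hGc hG using fun e : Om => analytic_fam d e
  refine ⟨Om, G, om_card.le, hGc, ?_, ?_⟩
  · intro e z
    obtain ⟨ρ, hρ⟩ := (hG e (G e z)).1 ⟨z, rfl⟩
    rw [wc_iff hR1 hR2 hd]
    intro j
    refine jj_of_rank (ρ j) ?_
    rintro l' l ⟨a, rfl, h1, h2⟩
    exact hρ j l a h1 h2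
  · intro A hA
    rw [wc_iff hR1 hR2 hd] at hA
    choose ρ hρ using fun j => om_rank (wr_wf (hA j))
    obtain ⟨e, he⟩ := om_bound (fun q : ℕ × List ℕ => ρ q.1 q.2)
    obtain ⟨z, hz⟩ := (hG e (fun n => decide (n ∈ A))).2
      ⟨fun j l => ⟨ρ j l, (he (j, l)).le⟩, fun j l a h1 h2 =>
        hρ j _ _ ⟨a, rfl, fun b hb => of_decide_eq_true (h1 b hb), h2⟩⟩
    refine ⟨e, z, ?_⟩
    rw [hz]
    ext n
    simp

end Pool.Agent.Helper11.TK
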