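import Pool.Agent.Helper11.TK.Base

/-!
Packet TK-R7b: complexity of the payoff set.
-/

set_option autoImplicit false
set_option linter.deprecated false

namespace Pool.Agent.Helper11.TK

open Set Filter Topology MeasureTheory Pool.Agent.Helper26.TK

theorem boolAn_inter {s t : Set (ℕ → ℕ)} (hs : BoolAn s) (ht : BoolAn t) : BoolAn (s ∩ t) := by
  have h : s ∩ t = (sᶜ ∪ tᶜ)ᶜ := by rw [Set.compl_union, compl_compl, compl_compl]
  rw [h]
  exact BoolAn.compl _ (BoolAn.union _ _ (BoolAn.compl _ hs) (BoolAn.compl _ ht))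

theorem cont_start (t : ℕ) : Continuous fun x : ℕ → ℕ => start x t := by
  induction t with
  | zero => exact continuous_const
  | succ t ih =>
    have h : (fun x : ℕ → ℕ => start x (t + 1)) =
        (fun p : ℕ × ℕ => if p.1 ≠ 0 then t else p.2) ∘ fun x : ℕ → ℕ => (x (2 * t), start x t) := by
      funext x
      rfl
    rw [h]
    exact continuous_of_discreteTopology.comp ((continuous_apply _).prodMk ih)

/-- the legality clause -/
theorem closed_legal : IsClosed {x : ℕ → ℕ | ∀ t, x (2 * t) ≠ 0 → x (2 * t) - 1 < t - start x t ∧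
      x (2 * (start x t + (x (2 * t) - 1)) + 1) = 0} := by
  have h1 : {x : ℕ → ℕ | ∀ t, x (2 * t) ≠ 0 → x (2 * t) - 1 < t - start x t ∧
      x (2 * (start x t + (x (2 * t) - 1)) + 1) = 0} =
      ⋂ t, (fun x : ℕ → ℕ => (x (2 * t), start x t,
        x (2 * (start x t + (x (2 * t) - 1)) + 1))) ⁻¹'
        {p : ℕ × ℕ × ℕ | p.1 ≠ 0 → p.1 - 1 < t - p.2.1 ∧ p.2.2 = 0} := by
    ext x
    simp
  rw [h1]
  refine isClosed_iInter fun t => (isClosed_discrete _).preimage ?_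
  refine (continuous_apply _).prodMk ((cont_start t).prodMk ?_)
  refine cont_disc (n := fun x : ℕ → ℕ => 2 * (start x t + (x (2 * t) - 1)) + 1)
    (g := fun k x => x k) ?_ fun k => continuous_apply k
  have h2 : (fun x : ℕ → ℕ => 2 * (start x t + (x (2 * t) - 1)) + 1) =
      (fun p : ℕ × ℕ => 2 * (p.1 + (p.2 - 1)) + 1) ∘ fun x : ℕ → ℕ => (start x t, x (2 * t)) := rfl
  rw [h2]
  exact continuous_of_discreteTopology.comp ((cont_start t).prodMk (continuous_apply _))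

theorem boolAn_inf : BoolAn {x : ℕ → ℕ | ∀ N, ∃ t ≥ N, x (2 * t) ≠ 0} := by
  have h1 : {x : ℕ → ℕ | ∀ N, ∃ t ≥ N, x (2 * t) ≠ 0} =
      (⋃ N, {x : ℕ → ℕ | ∀ t ≥ N, x (2 * t) = 0})ᶜ := by
    ext x
    simp
  rw [h1]
  refine BoolAn.compl _ (BoolAn.an _ (AnalyticSet.iUnion fun N => IsClosed.analyticSet ?_))
  have h2 : {x : ℕ → ℕ | ∀ t ≥ N, x (2 * t) = 0} =
      ⋂ t, ⋂ (_ : t ≥ N), {x : ℕ → ℕ | x (2 * t) = 0} := by
    ext x
    simp
  rw [h2]
  exact isClosed_iInter fun t => isClosed_iInter fun _ =>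
    isClosed_eq (continuous_apply _) continuous_const

theorem analytic_nwc {X : Type} [NormedAddCommGroup X] [NormedSpace ℝ X] (d : ℕ → X) (δ : ℝ) :
    AnalyticSet {x : ℕ → ℕ | ¬ JJ d δ {k | ∃ t, x (2 * t) = k + 1}} := by
  have h1 : {x : ℕ → ℕ | ¬ JJ d δ {k | ∃ t, x (2 * t) = k + 1}} =
      Prod.fst '' {p : (ℕ → ℕ) × ((ℕ → ℕ) × (ℕ → ℕ)) |
        (∀ i, p.1 (2 * p.2.2 i) = p.2.1 i + 1) ∧ Sep δ (fun i => d (p.2.1 i))} := by
    ext x
    constructor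
    · intro hx
      obtain ⟨s, hs, hsep⟩ := not_not.1 hx
      choose τ hτ using hs
      exact ⟨(x, s, τ), ⟨hτ, hsep⟩, rfl⟩
    · rintro ⟨⟨x, s, τ⟩, ⟨h1, h2⟩, rfl⟩
      exact not_not.2 ⟨s, fun i => ⟨τ i, h1 i⟩, h2⟩
  rw [h1]
  refine AnalyticSet.image_of_continuous (IsClosed.analyticSet ?_) continuous_fst
  refine IsClosed.inter ?_ ?_
  · have h2 : {p : (ℕ → ℕ) × ((ℕ → ℕ) × (ℕ → ℕ)) | ∀ i, p.1 (2 * p.2.2 i) = p.2.1 i + 1} =
        ⋂ i, {p : (ℕ → ℕ) × ((ℕ → ℕ) × (ℕ → ℕ)) | p.1 (2 * p.2.2 i) = p.2.1 i + 1} := by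
      ext p
      simp
    have h3 := isClosed_iInter (f := fun i =>
      {p : (ℕ → ℕ) × ((ℕ → ℕ) × (ℕ → ℕ)) | p.1 (2 * p.2.2 i) = p.2.1 i + 1}) ?_
    · rw [← h2] at h3
      exact h3
    · intro i
      refine isClosed_eq ?_ ?_
      · refine cont_disc (n := fun p : (ℕ → ℕ) × ((ℕ → ℕ) × (ℕ → ℕ)) => 2 * p.2.2 i)
          (g := fun k p => p.1 k) ?_ ?_
        · exact (continuous_of_discreteTopology (f := fun m : ℕ => 2 * m)).comp
            ((continuous_apply i).comp (continuous_snd.comp continuous_snd))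
        · intro k
          exact (continuous_apply k).comp continuous_fst
      · exact (continuous_of_discreteTopology (f := fun m : ℕ => m + 1)).comp
          ((continuous_apply i).comp (continuous_fst.comp continuous_snd))
  · exact (closed_sep d δ).preimage (continuous_fst.comp continuous_snd)

theorem analytic_last {X : Type} [NormedAddCommGroup X] [NormedSpace ℝ X] (d : ℕ → X) (δ : ℝ) :
    AnalyticSet {x : ℕ → ℕ | ∃ N, (∀ t ≥ N, x (2 * t) = 0) ∧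
      ¬ JJ d δ {i | x (2 * (start x N + i) + 1) ≠ 0}} := by
  have h1 : {x : ℕ → ℕ | ∃ N, (∀ t ≥ N, x (2 * t) = 0) ∧
      ¬ JJ d δ {i | x (2 * (start x N + i) + 1) ≠ 0}} =
      ⋃ N, Prod.fst '' {p : (ℕ → ℕ) × (ℕ → ℕ) | ((∀ t ≥ N, p.1 (2 * t) = 0) ∧
        ∀ i, p.1 (2 * (start p.1 N + p.2 i) + 1) ≠ 0) ∧ Sep δ (fun i => d (p.2 i))} := by
    ext x
    rw [Set.mem_iUnion]
    constructor
    · rintro ⟨N, hN, hx⟩
      obtain ⟨s, hs, hsep⟩ := not_not.1 hx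
      exact ⟨N, (x, s), ⟨⟨hN, hs⟩, hsep⟩, rfl⟩
    · rintro ⟨N, ⟨x, s⟩, ⟨⟨h1, h2⟩, h3⟩, rfl⟩
      exact ⟨N, h1, not_not.2 ⟨s, h2, h3⟩⟩
  rw [h1]
  refine AnalyticSet.iUnion fun N => AnalyticSet.image_of_continuous
    (IsClosed.analyticSet ?_) continuous_fst
  refine IsClosed.inter (IsClosed.inter ?_ ?_) ?_
  · have h2 : {p : (ℕ → ℕ) × (ℕ → ℕ) | ∀ t ≥ N, p.1 (2 * t) = 0} =
        ⋂ t, ⋂ (_ : t ≥ N), {p : (ℕ → ℕ) × (ℕ → ℕ) | p.1 (2 * t) = 0} := by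
      ext x
      simp
    have h3 : IsClosed (⋂ t, ⋂ (_ : t ≥ N), {p : (ℕ → ℕ) × (ℕ → ℕ) | p.1 (2 * t) = 0}) :=
      isClosed_iInter fun t => isClosed_iInter fun _ =>
        isClosed_eq ((continuous_apply _).comp continuous_fst) continuous_const
    rw [← h2] at h3
    exact h3
  · have h2 : {p : (ℕ → ℕ) × (ℕ → ℕ) | ∀ i, p.1 (2 * (start p.1 N + p.2 i) + 1) ≠ 0} =
        ⋂ i, (fun p : (ℕ → ℕ) × (ℕ → ℕ) => p.1 (2 * (start p.1 N + p.2 i) + 1)) ⁻¹' {0}ᶜ := by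
      ext x
      simp
    have h3 : IsClosed (⋂ i, (fun p : (ℕ → ℕ) × (ℕ → ℕ) =>
        p.1 (2 * (start p.1 N + p.2 i) + 1)) ⁻¹' {0}ᶜ) := by
      refine isClosed_iInter fun i => (isClosed_discrete _).preimage ?_
      refine cont_disc (n := fun p : (ℕ → ℕ) × (ℕ → ℕ) => 2 * (start p.1 N + p.2 i) + 1)
        (g := fun k p => p.1 k) ?_ ?_
      · have h4 : (fun p : (ℕ → ℕ) × (ℕ → ℕ) => 2 * (start p.1 N + p.2 i) + 1) =
            (fun q : ℕ × ℕ => 2 * (q.1 + q.2) + 1) ∘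
              fun p : (ℕ → ℕ) × (ℕ → ℕ) => (start p.1 N, p.2 i) := rfl
        rw [h4]
        exact continuous_of_discreteTopology.comp (((cont_start N).comp continuous_fst).prodMk
          ((continuous_apply i).comp continuous_snd))
      · intro k
        exact (continuous_apply k).comp continuous_fst
    rw [← h2] at h3
    exact h3
  · exact (closed_sep d δ).preimage continuous_snd

theorem stmtR7b (hR1 : StmtR1) (hR2 : StmtR2) : StmtR7b := by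
  intro X _ _ _ d hd δ _
  have hW : BoolAn {x : ℕ → ℕ | WC d {k | ∃ t, x (2 * t) = k + 1}} := by
    have h1 : {x : ℕ → ℕ | WC d {k | ∃ t, x (2 * t) = k + 1}} =
        (⋃ j : ℕ, {x : ℕ → ℕ | ¬ JJ d (1 / ((j : ℝ) + 1)) {k | ∃ t, x (2 * t) = k + 1}})ᶜ := by
      ext x
      simp only [Set.mem_setOf_eq, Set.mem_compl_iff, Set.mem_iUnion, not_exists, not_not]
      exact wc_iff hR1 hR2 hd _
    rw [h1]
    exact BoolAn.compl _ (BoolAn.an _ (AnalyticSet.iUnion fun j => analytic_nwc d _))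
  have h1 : Pay (JJ d δ) (WC d) =
      {x : ℕ → ℕ | ∀ t, x (2 * t) ≠ 0 → x (2 * t) - 1 < t - start x t ∧
        x (2 * (start x t + (x (2 * t) - 1)) + 1) = 0} ∩
      (({x : ℕ → ℕ | ∀ N, ∃ t ≥ N, x (2 * t) ≠ 0} ∩
        {x : ℕ → ℕ | WC d {k | ∃ t, x (2 * t) = k + 1}}) ∪
      {x : ℕ → ℕ | ∃ N, (∀ t ≥ N, x (2 * t) = 0) ∧
        ¬ JJ d δ {i | x (2 * (start x N + i) + 1) ≠ 0}}) := rfl
  rw [h1]
  exact boolAn_inter (BoolAn.an _ closed_legal.analyticSet)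
    (BoolAn.union _ _ (boolAn_inter boolAn_inf hW) (BoolAn.an _ (analytic_last d δ)))

end Pool.Agent.Helper11.TK
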